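import Pool.Agent.Helper46.NB.Stmts
import Pool.Agent.Helper86.BF.LLL

/-!
Project NB, row REG1: one step in a regular state, by the local lemma.
-/

set_option autoImplicit false

namespace Pool.Agent.Helper79.NB

open Pool.Agent.Helper46.NB Finset
open Pool.Agent.Helper86.BF (DepOn lll)
open scoped Classical

noncomputable section

variable {V : Type} [Fintype V]

/-- common vertex -/
def Meet (e g : Sym2 V) : Prop := ∃ x, x ∈ e ∧ x ∈ g

omit [Fintype V] in
lemma Meet.symm {e g : Sym2 V} (h : Meet e g) : Meet g e := by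
  obtain ⟨x, h1, h2⟩ := h; exact ⟨x, h2, h1⟩

omit [Fintype V] in
lemma Meet.refl (e : Sym2 V) : Meet e e := by
  induction e with | _ a b => exact ⟨a, by simp, by simp⟩

/-- edges of `E` meeting `e` -/
def nbE (E : Finset (Sym2 V)) (e : Sym2 V) : Finset (Sym2 V) := E.filter fun g => Meet e g

/-- second neighbourhood -/
def dep1 (E : Finset (Sym2 V)) (f : Sym2 V) : Finset (Sym2 V) := (nbE E f).biUnion (nbE E)

/-- third neighbourhood of a vertex -/
def dep2 (E : Finset (Sym2 V)) (v : V) : Finset (Sym2 V) :=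
  (E.filter fun e => v ∈ e).biUnion (dep1 E)

lemma card_nbE {E : Finset (Sym2 V)} {M : ℕ} (hdeg : ∀ v, #(E.filter fun e => v ∈ e) ≤ M)
    (e : Sym2 V) : #(nbE E e) ≤ 2 * M := by
  induction e with | _ a b => 
  have : nbE E s(a, b) ⊆ (E.filter fun g => a ∈ g) ∪ (E.filter fun g => b ∈ g) := by
    intro g hg
    simp only [nbE, mem_filter] at hg
    obtain ⟨hg, x, hx, hx'⟩ := hg
    simp only [mem_union, mem_filter]
    rcases Sym2.mem_iff.1 hx with rfl | rfl
    · exact Or.inl ⟨hg, hx'⟩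
    · exact Or.inr ⟨hg, hx'⟩
  have h1 := (card_le_card this).trans (card_union_le _ _)
  have h2 := hdeg a
  have h3 := hdeg b
  omega

lemma card_dep1 {E : Finset (Sym2 V)} {M : ℕ} (hdeg : ∀ v, #(E.filter fun e => v ∈ e) ≤ M)
    (e : Sym2 V) : #(dep1 E e) ≤ 4 * M ^ 2 := by
  have h1 : #(dep1 E e) ≤ #(nbE E e) * (2 * M) :=
    card_biUnion_le_card_mul _ _ _ fun g _ => card_nbE hdeg g
  have h2 := Nat.mul_le_mul_right (2 * M) (card_nbE hdeg e)
  calc #(dep1 E e) ≤ _ := h1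
    _ ≤ _ := h2
    _ = 4 * M ^ 2 := by ring

lemma card_dep2 {E : Finset (Sym2 V)} {M : ℕ} (hdeg : ∀ v, #(E.filter fun e => v ∈ e) ≤ M)
    (v : V) : #(dep2 E v) ≤ 4 * M ^ 3 := by
  have h1 : #(dep2 E v) ≤ #(E.filter fun e => v ∈ e) * (4 * M ^ 2) :=
    card_biUnion_le_card_mul _ _ _ fun g _ => card_dep1 hdeg g
  have h2 := Nat.mul_le_mul_right (4 * M ^ 2) (hdeg v)
  calc #(dep2 E v) ≤ _ := h1
    _ ≤ _ := h2
    _ = 4 * M ^ 3 := by ring

lemma mem_nbE {E : Finset (Sym2 V)} {e g : Sym2 V} : g ∈ nbE E e ↔ g ∈ E ∧ Meet e g := by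
  simp [nbE]

lemma dep1_symm {E : Finset (Sym2 V)} {f g : Sym2 V} (hf : f ∈ E) (h : g ∈ dep1 E f) :
    f ∈ dep1 E g := by
  simp only [dep1, mem_biUnion, mem_nbE] at h ⊢
  obtain ⟨e, ⟨he, hfe⟩, hg, heg⟩ := h
  exact ⟨e, ⟨he, heg.symm⟩, hf, hfe.symm⟩

lemma nbE_sub_dep1 {E : Finset (Sym2 V)} {f : Sym2 V} (hf : f ∈ E) : nbE E f ⊆ dep1 E f :=
  subset_biUnion_of_mem (nbE E) (mem_nbE.2 ⟨hf, Meet.refl f⟩)

lemma ret_congr {N : ℕ} {E : Finset (Sym2 V)} {pick : Sym2 V → Fin N → Option ℕ}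
    {ω ω' : Sym2 V → Fin N} {e : Sym2 V} (h : ∀ g ∈ nbE E e, ω g = ω' g) (c : ℕ) :
    Ret E pick ω e c ↔ Ret E pick ω' e c := by
  unfold Ret Pk
  by_cases he : e ∈ E
  · have h1 : ω e = ω' e := h e (mem_nbE.2 ⟨he, Meet.refl e⟩)
    rw [h1]
    have h2 : (∀ e' ∈ E, Adj e e' → ¬ pick e' (ω e') = some c) ↔
        (∀ e' ∈ E, Adj e e' → ¬ pick e' (ω' e') = some c) := by
      refine forall_congr' fun e' => forall_congr' fun he' => forall_congr' fun had => ?_
      rw [h e' (mem_nbE.2 ⟨he', had.2⟩)]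
    rw [h2]
  · simp [he]

lemma lost_congr {N : ℕ} {E : Finset (Sym2 V)} {pick : Sym2 V → Fin N → Option ℕ}
    {ω ω' : Sym2 V → Fin N} {v : V} (h : ∀ e ∈ E, v ∈ e → ∀ g ∈ nbE E e, ω g = ω' g) (c : ℕ) :
    Lost E pick ω v c ↔ Lost E pick ω' v c := by
  unfold Lost
  refine exists_congr fun e => ?_
  by_cases he : e ∈ E
  · by_cases hv : v ∈ e
    · rw [ret_congr (h e he hv)]
    · simp [hv]
  · simp [Ret, he]

lemma XX_dep {N : ℕ} (E : Finset (Sym2 V)) (L : Sym2 V → Finset ℕ)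
    (pick : Sym2 V → Fin N → Option ℕ) (f : Sym2 V) : DepOn (dep1 E f) (XX E L pick f) := by
  intro ω ω' h
  unfold XX
  congr 2
  ext c
  simp only [mem_filter]
  refine and_congr_right fun _ => ?_
  refine exists_congr fun v => and_congr_right fun hv => ?_
  refine lost_congr (fun e he hve g hg => h g ?_) c
  exact mem_biUnion.2 ⟨e, mem_nbE.2 ⟨he, v, hv, hve⟩, hg⟩

lemma YY_dep {N : ℕ} (E R : Finset (Sym2 V)) (L : Sym2 V → Finset ℕ)
    (pick : Sym2 V → Fin N → Option ℕ) (v : V) (c : ℕ) :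
    DepOn (dep2 E v) (YY E R L pick v c) := by
  intro ω ω' h
  unfold YY
  congr 2
  ext f
  simp only [mem_filter]
  refine and_congr_right fun hf => ?_
  simp only [T, mem_filter] at hf
  have hsub : dep1 E f ⊆ dep2 E v :=
    subset_biUnion_of_mem (dep1 E) (mem_filter.2 ⟨hf.1, hf.2.1⟩)
  refine and_congr_right fun _ => ?_
  refine and_congr ?_ ?_
  · refine forall_congr' fun c' => ?_
    rw [ret_congr (fun g hg => h g (hsub (nbE_sub_dep1 hf.1 hg))) c']
  · refine forall_congr' fun w => forall_congr' fun hw => forall_congr' fun _ => ?_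
    rw [lost_congr (fun e he hwe g hg => h g (hsub ?_)) c]
    exact mem_biUnion.2 ⟨e, mem_nbE.2 ⟨he, w, hw, hwe⟩, hg⟩

lemma exp_bound {D : ℕ} (hD : 10 ^ 6 ≤ D) {x : ℝ} (hx : 31 * Real.log D ≤ x) :
    Real.exp (-x) ≤ ((D : ℝ) ^ 31)⁻¹ := by
  have hD0 : (0 : ℝ) < D := by
    have : 0 < D := by omega
    exact_mod_cast this
  have h1 : Real.exp (-x) ≤ Real.exp (-(31 * Real.log D)) := Real.exp_le_exp.2 (by linarith)
  have h2 : Real.exp (31 * Real.log D) = (D : ℝ) ^ 31 := by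
    have := Real.exp_nat_mul (Real.log D) 31
    rw [Real.exp_log hD0] at this
    rw [← this]; norm_num
  rw [Real.exp_neg (31 * Real.log D), h2] at h1
  exact h1

lemma pr_bound {N D d : ℕ} (hN : 0 < N) (hD : 10 ^ 6 ≤ D) (hd : 4 * d ≤ D ^ 20)
    (P : (Sym2 V → Fin N) → Prop) {x : ℝ} (hx : 31 * Real.log D ≤ x)
    (hP : Pr P ≤ Real.exp (-x)) :
    4 * d * #(univ.filter P) ≤ Fintype.card (Sym2 V → Fin N) := by
  have : Nonempty (Fin N) := ⟨⟨0, hN⟩⟩
  have hD0 : (0 : ℝ) < D := by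
    have : 0 < D := by omega
    exact_mod_cast this
  have hD1 : (1 : ℝ) ≤ D := by
    have : 1 ≤ D := by omega
    exact_mod_cast this
  have hc : (0 : ℝ) < Fintype.card (Sym2 V → Fin N) := by exact_mod_cast Fintype.card_pos
  have h1 : (#(univ.filter P) : ℝ) ≤ ((D : ℝ) ^ 31)⁻¹ * Fintype.card (Sym2 V → Fin N) := by
    have := hP.trans (exp_bound hD hx)
    unfold Pr at this
    rwa [div_le_iff₀ hc] at this
  have h2 : ((4 * d : ℕ) : ℝ) ≤ (D : ℝ) ^ 20 := by exact_mod_cast hd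
  have h3 : ((4 * d * #(univ.filter P) : ℕ) : ℝ) ≤ (Fintype.card (Sym2 V → Fin N) : ℝ) := by
    push_cast at h2 ⊢
    calc (4 * (d : ℝ) * (#(univ.filter P) : ℝ)) ≤
        (D : ℝ) ^ 20 * (((D : ℝ) ^ 31)⁻¹ * Fintype.card (Sym2 V → Fin N)) := by
          apply mul_le_mul h2 h1 (by positivity) (by positivity)
      _ = ((D : ℝ) ^ 11)⁻¹ * Fintype.card (Sym2 V → Fin N) := by
          field_simp
      _ ≤ 1 * Fintype.card (Sym2 V → Fin N) := by
          apply mul_le_mul_of_nonneg_right _ hc.le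
          exact inv_le_one_of_one_le₀ (one_le_pow₀ hD1)
      _ = _ := one_mul _
  exact_mod_cast h3

lemma th_nonneg (l t : ℕ) (hl : 1 ≤ l) : 0 ≤ th (4 * l) t := by
  unfold th
  have hl' : (1 : ℝ) ≤ l := by exact_mod_cast hl
  have h4 : (0 : ℝ) < ((4 * l : ℕ) : ℝ) := by push_cast; linarith
  have : 1 / ((4 * l : ℕ) : ℝ) ≤ 1 := by
    rw [div_le_one h4]; push_cast; linarith
  have h5 : 0 ≤ 1 - 1 / ((4 * l : ℕ) : ℝ) := by linarith
  positivity

lemma th_le (l t : ℕ) (hl : 1 ≤ l) : th (4 * l) t ≤ 1 / (4 * l) := by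
  unfold th
  have hl' : (1 : ℝ) ≤ l := by exact_mod_cast hl
  have h4 : (0 : ℝ) < ((4 * l : ℕ) : ℝ) := by push_cast; linarith
  have : 1 / ((4 * l : ℕ) : ℝ) ≤ 1 := by
    rw [div_le_one h4]; push_cast; linarith
  have h5 : 0 ≤ 1 - 1 / ((4 * l : ℕ) : ℝ) := by linarith
  have h6 : 1 - 1 / ((4 * l : ℕ) : ℝ) ≤ 1 := by
    have : 0 ≤ 1 / ((4 * l : ℕ) : ℝ) := by positivity
    linarith
  have h7 := pow_le_one₀ h5 h6 (n := 2 * t - 2)
  calc 1 / ((4 * l : ℕ) : ℝ) * (1 - 1 / ((4 * l : ℕ) : ℝ)) ^ (2 * t - 2) ≤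
      1 / ((4 * l : ℕ) : ℝ) * 1 := by
        apply mul_le_mul_of_nonneg_left h7; positivity
    _ = 1 / (4 * l) := by push_cast; ring

lemma KK_nonneg (l t : ℕ) (hl : 1 ≤ l) (htl : t ≤ l) : 0 ≤ KK l t := by
  unfold KK
  have h1 := th_le l t hl
  have h0 := th_nonneg l t hl
  have hl' : (1 : ℝ) ≤ l := by exact_mod_cast hl
  have htl' : (t : ℝ) ≤ l := by exact_mod_cast htl
  have h2 : (t : ℝ) * th (4 * l) t ≤ l * (1 / (4 * l)) :=
    mul_le_mul htl' h1 h0 (by linarith)
  have h3 : (l : ℝ) * (1 / (4 * l)) = 1 / 4 := by field_simp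
  linarith

lemma aa_le (l t : ℕ) (hl : 1 ≤ l) : aa l t ≤ 1 / 4 := by
  unfold aa
  have h1 := th_le l t hl
  have hl' : (1 : ℝ) ≤ l := by exact_mod_cast hl
  have h2 : (l : ℝ) * th (4 * l) t ≤ l * (1 / (4 * l)) :=
    mul_le_mul_of_nonneg_left h1 (by linarith)
  have h3 : (l : ℝ) * (1 / (4 * l)) = 1 / 4 := by field_simp
  linarith

lemma num_bound {D l t M : ℕ} (hD : 10 ^ 6 ≤ D) (hM : M = D + D * l * t) (hl : 1 ≤ l)
    (htD : t ≤ D) (hlD : l ≤ 2 * D) :
    4 * (4 * M ^ 3 * (4 * M ^ 2 + 8 * M ^ 3 * l)) ≤ D ^ 20 := by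
  have h1 : M ≤ 3 * D ^ 3 := by
    have h2 : D * l * t ≤ D * (2 * D) * D := by gcongr
    have h3 : D ≤ D ^ 3 := Nat.le_self_pow (by norm_num) D
    rw [hM]
    calc D + D * l * t ≤ D ^ 3 + D * (2 * D) * D := by omega
      _ = 3 * D ^ 3 := by ring
  have hM1 : 1 ≤ M := by rw [hM]; omega
  have h4 : 4 * (4 * M ^ 3 * (4 * M ^ 2 + 8 * M ^ 3 * l)) ≤ 192 * M ^ 6 * l := by
    have h5 : M ^ 5 ≤ M ^ 6 * l := by
      calc M ^ 5 = M ^ 5 * 1 * 1 := by ring
        _ ≤ M ^ 5 * M * l := by gcongr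
        _ = M ^ 6 * l := by ring
    calc 4 * (4 * M ^ 3 * (4 * M ^ 2 + 8 * M ^ 3 * l)) = 64 * M ^ 5 + 128 * (M ^ 6 * l) := by ring
      _ ≤ 64 * (M ^ 6 * l) + 128 * (M ^ 6 * l) := by omega
      _ = 192 * M ^ 6 * l := by ring
  calc 4 * (4 * M ^ 3 * (4 * M ^ 2 + 8 * M ^ 3 * l)) ≤ 192 * M ^ 6 * l := h4
    _ ≤ 192 * (3 * D ^ 3) ^ 6 * (2 * D) := by gcongr
    _ = 279936 * D ^ 19 := by ring
    _ ≤ D * D ^ 19 := by
      apply Nat.mul_le_mul_right; omega
    _ = D ^ 20 := by ring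

theorem st_REG1 : ST_E1 → ST_E2 → ST_C1 → ST_C2 → ST_PICK → ST_REG1 := by
  intro hE1 hE2 hC1 hC2 hPICK D hD l t V _ E R L hReg hR hRl ht1 htl htD hlD hlog
  have hl1 : 1 ≤ l := ht1.trans htl
  set M := D + D * l * t with hM
  have hM1 : 1 ≤ M := by omega
  obtain ⟨pick, hpick⟩ := hPICK V E L (4 * l) fun e he => (hReg.list e he).trans (by omega)
  have hN : 0 < 4 * l := by omega
  have : Nonempty (Fin (4 * l)) := ⟨⟨0, hN⟩⟩
  set s := ss t D with hs
  have hD1 : (1 : ℝ) ≤ D := by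
    have : 1 ≤ D := by omega
    exact_mod_cast this
  have hlog0 : 0 ≤ Real.log D := Real.log_nonneg hD1
  have ht0 : (1 : ℝ) ≤ t := by exact_mod_cast ht1
  have hs0 : 0 ≤ s := by rw [hs]; unfold ss; positivity
  have hs2 : s ^ 2 = 10 ^ 4 * (t * Real.log D) := by
    rw [hs]; unfold ss
    rw [mul_pow, Real.sq_sqrt (by positivity)]; norm_num
  have hst : s ≤ 2 * t := by
    apply le_of_sq_le_sq _ (by positivity)
    rw [hs2]
    nlinarith
  -- index type
  set P := E.biUnion L with hP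
  let J := Sym2 V ⊕ (V × {c // c ∈ P})
  let Bad : J → Finset (Sym2 V → Fin (4 * l)) := fun j => match j with
    | Sum.inl f => if f ∈ R then
        univ.filter fun ω => Av (XX E L pick f) + s ≤ XX E L pick f ω else ∅
    | Sum.inr q => if (T E L q.1 q.2).Nonempty then
        univ.filter fun ω => Av (YY E R L pick q.1 q.2) + s ≤ YY E R L pick q.1 q.2 ω else ∅
  let Dp : J → Finset (Sym2 V) := fun j => match j with
    | Sum.inl f => if f ∈ R then dep1 E f else ∅
    | Sum.inr q => if (T E L q.1 q.2).Nonempty then dep2 E q.1 else ∅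
  have hdeg := hReg.deg
  have hdep : ∀ j, DepOn (Dp j) (fun ω => ω ∈ Bad j) := by
    rintro (f | q) ω ω' h
    · by_cases hf : f ∈ R
      · simp only [Dp, Bad, hf, if_true, mem_filter, mem_univ, true_and] at h ⊢
        rw [XX_dep E L pick f ω ω' h]
      · simp [Bad, hf]
    · by_cases hf : (T E L q.1 q.2).Nonempty
      · simp only [Dp, Bad, hf, if_true, mem_filter, mem_univ, true_and] at h ⊢
        rw [YY_dep E R L pick q.1 q.2 ω ω' h]
      · simp [Bad, hf]
  have hcardD : ∀ j, #(Dp j) ≤ 4 * M ^ 3 := by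
    rintro (f | q)
    · by_cases hf : f ∈ R
      · simp only [Dp, hf, if_true]
        refine (card_dep1 hdeg f).trans ?_
        apply Nat.mul_le_mul_left
        exact Nat.pow_le_pow_right hM1 (by norm_num)
      · simp [Dp, hf]
    · by_cases hf : (T E L q.1 q.2).Nonempty
      · simp only [Dp, hf, if_true]
        exact card_dep2 hdeg q.1
      · simp [Dp, hf]
  -- events containing a given coordinate
  have hrev : ∀ g : Sym2 V, #(univ.filter fun j' => g ∈ Dp j') ≤ 4 * M ^ 2 + 8 * M ^ 3 * l := by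
    intro g
    let S1 : Finset J := (dep1 E g).image Sum.inl
    let W : Finset V := (dep1 E g).biUnion fun e' => univ.filter fun v => v ∈ e'
    let C : V → Finset {c // c ∈ P} := fun v =>
      univ.filter fun c => (T E L v c.1).Nonempty
    let S2 : Finset J := (W.biUnion fun v => (C v).image fun c => ((v, c) : V × {c // c ∈ P})).image
      Sum.inr
    have hsub : (univ.filter fun j' => g ∈ Dp j') ⊆ S1 ∪ S2 := by
      rintro (f | ⟨v, c⟩) hj
      · simp only [mem_filter, mem_univ, true_and, Dp] at hj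
        by_cases hf : f ∈ R
        · simp only [hf, if_true] at hj
          exact mem_union_left _ (mem_image.2 ⟨f, dep1_symm (hR hf) hj, rfl⟩)
        · simp [hf] at hj
      · simp only [mem_filter, mem_univ, true_and, Dp] at hj
        by_cases hf : (T E L v c).Nonempty
        · simp only [hf, if_true] at hj
          apply mem_union_right
          obtain ⟨e', he', hg⟩ := mem_biUnion.1 hj
          have he'' := mem_filter.1 he'
          refine mem_image.2 ⟨(v, c), mem_biUnion.2 ⟨v, ?_, ?_⟩, rfl⟩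
          · exact mem_biUnion.2 ⟨e', dep1_symm he''.1 hg, mem_filter.2 ⟨mem_univ _, he''.2⟩⟩
          · exact mem_image.2 ⟨c, mem_filter.2 ⟨mem_univ _, hf⟩, rfl⟩
        · simp [hf] at hj
    have hW : #W ≤ 4 * M ^ 2 * 2 := by
      refine (card_biUnion_le_card_mul _ _ 2 ?_).trans
        (Nat.mul_le_mul_right _ (card_dep1 hdeg g))
      intro e _
      induction e with | _ a b => 
      have : (univ.filter fun v => v ∈ s(a, b)) ⊆ {a, b} := by
        intro v hv
        simpa using hv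
      exact (card_le_card this).trans card_le_two
    have hC : ∀ v, #(C v) ≤ M * l := by
      intro v
      have h1 : (C v).image Subtype.val ⊆ (E.filter fun e => v ∈ e).biUnion L := by
        intro c hc
        obtain ⟨c', hc', rfl⟩ := mem_image.1 hc
        obtain ⟨e, he⟩ := (mem_filter.1 hc').2
        simp only [T, mem_filter] at he
        exact mem_biUnion.2 ⟨e, mem_filter.2 ⟨he.1, he.2.1⟩, he.2.2⟩
      have h2 : #((C v).image Subtype.val) = #(C v) := card_image_of_injective _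
        Subtype.val_injective
      rw [← h2]
      refine (card_le_card h1).trans ?_
      refine (card_biUnion_le_card_mul _ _ l ?_).trans (Nat.mul_le_mul_right _ (hdeg v))
      intro e he
      exact hReg.list e (mem_filter.1 he).1
    have hS2 : #S2 ≤ 4 * M ^ 2 * 2 * (M * l) := by
      refine card_image_le.trans ?_
      refine (card_biUnion_le_card_mul _ _ (M * l) ?_).trans (Nat.mul_le_mul_right _ hW)
      intro v _
      exact card_image_le.trans (hC v)
    have hS1 : #S1 ≤ 4 * M ^ 2 := card_image_le.trans (card_dep1 hdeg g)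
    calc #(univ.filter fun j' => g ∈ Dp j') ≤ #(S1 ∪ S2) := card_le_card hsub
      _ ≤ #S1 + #S2 := card_union_le _ _
      _ ≤ 4 * M ^ 2 + 4 * M ^ 2 * 2 * (M * l) := by omega
      _ = 4 * M ^ 2 + 8 * M ^ 3 * l := by ring
  set d := 4 * M ^ 3 * (4 * M ^ 2 + 8 * M ^ 3 * l) with hd
  have hd0 : 0 < d := by rw [hd]; positivity
  have hnum : 4 * d ≤ D ^ 20 := num_bound hD hM hl1 htD hlD
  have hdd : ∀ j, #(univ.filter fun j' => ¬ Disjoint (Dp j) (Dp j')) ≤ d := by
    intro j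
    have hsub : (univ.filter fun j' => ¬ Disjoint (Dp j) (Dp j')) ⊆
        (Dp j).biUnion fun g => univ.filter fun j' => g ∈ Dp j' := by
      intro j' hj'
      obtain ⟨g, hg, hg'⟩ := Finset.not_disjoint_iff.1 (mem_filter.1 hj').2
      exact mem_biUnion.2 ⟨g, hg, mem_filter.2 ⟨mem_univ _, hg'⟩⟩
    refine (card_le_card hsub).trans ?_
    refine (card_biUnion_le_card_mul _ _ _ fun g _ => hrev g).trans ?_
    exact Nat.mul_le_mul_right _ (hcardD j)
  have hp : ∀ j, 4 * d * #(Bad j) ≤ Fintype.card (Sym2 V → Fin (4 * l)) := by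
    rintro (f | q)
    · by_cases hf : f ∈ R
      · simp only [Bad, hf, if_true]
        refine pr_bound hN hD hnum _ (x := s ^ 2 / (16 * t)) ?_
          (hC1 V E L l t M pick hl1 ht1 htl hReg hpick f (hR hf) (hRl f hf) s hs0 hst)
        rw [hs2, le_div_iff₀ (by positivity)]
        nlinarith
      · simp [Bad, hf]
    · by_cases hf : (T E L q.1 q.2).Nonempty
      · simp only [Bad, hf, if_true]
        refine pr_bound hN hD hnum _ (x := s ^ 2 / (320 * t)) ?_
          (hC2 V E R L l t M pick hl1 ht1 htl hReg hpick hR q.1 q.2 s hs0 (by linarith))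
        rw [hs2, le_div_iff₀ (by positivity)]
        nlinarith
      · simp [Bad, hf]
  obtain ⟨ω, hω⟩ := lll (J := J) Bad Dp hdep d hd0 hp hdd
  refine ⟨pick, ω, hpick, ?_, ?_⟩
  · intro f hf
    have h1 := hω (Sum.inl f)
    simp only [Bad, hf, if_true, mem_filter, mem_univ, true_and, not_le] at h1
    have h2 := hE1 V E L l t M pick hl1 htl hReg hpick f (hR hf) (hRl f hf)
    linarith
  · intro v c
    have hpos : 0 ≤ (t : ℝ) * KK l t * (1 - aa l t) := by
      have h1 := KK_nonneg l t hl1 htl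
      have h2 := aa_le l t hl1
      have h3 : 0 ≤ 1 - aa l t := by linarith
      positivity
    by_cases hne : (T E L v c).Nonempty
    · have hc : c ∈ P := by
        obtain ⟨e, he⟩ := hne
        simp only [T, mem_filter] at he
        exact mem_biUnion.2 ⟨e, he.1, he.2.2⟩
      have h1 := hω (Sum.inr (v, ⟨c, hc⟩))
      simp only [Bad, hne, if_true, mem_filter, mem_univ, true_and, not_le] at h1
      have h2 := hE2 V E R L l t M pick hl1 htl hReg hpick hR hRl v c
      linarith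
    · have h0 : YY E R L pick v c ω = 0 := by
        unfold YY
        rw [Finset.not_nonempty_iff_eq_empty.1 hne]
        simp
      rw [h0]; linarith

end

end Pool.Agent.Helper79.NB
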